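import Pool.Agent.Work.MP_8f87b2_base.Frame

/-!
MP_8f87b2_co: ASSEMBLY OF THE DIRECTED ROAD. A finite family of gadgets `g`: words `B g` (pairwise disjoint), new words
`F g` (a union of T-cycles, pairwise disjoint, together with the root T-cycle they are everything), every word of `B g` is
in `F g`, in the root or in `F h` with `rk h < rk g`; `arcs g` = pairs `(u, v)` of words of `B g` such that the walk from
`u` returns to `B g` in `v`. If every gadget absorbs (adaptively, knowing the permutation built so far) then there is a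
legal permutation `π` with `TT * π` one cycle.
-/

namespace Pool.OddHC

open Finset Equiv Pool.Agent.Work.MP_8f87b2_co

variable {k : ℕ}

/-- the walk of `f` from `u` returns to `B` in `v` -/
def FR {W : Type} (f : Perm W) (B : Finset W) (u v : W) : Prop :=
  ∃ n : ℕ, (f ^ (n + 1)) u = v ∧ ∀ i < n, (f ^ (i + 1)) u ∉ B

/-- the walk of `f` from `u` to `v` is the walk of `T` -/
theorem FR.congr {W : Type} {f T : Perm W} {B : Finset W} {u v : W} (n : ℕ)
    (hv : (T ^ (n + 1)) u = v) (hB : ∀ i < n, (T ^ (i + 1)) u ∉ B)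
    (h : ∀ i ≤ n, f ((T ^ i) u) = T ((T ^ i) u)) : FR f B u v := by
  have key : ∀ i, i ≤ n + 1 → (f ^ i) u = (T ^ i) u := by
    intro i
    induction i with
    | zero => intro _; rfl
    | succ i ih =>
      intro hi
      rw [pow_succ', Perm.mul_apply, ih (by omega), h i (by omega), pow_succ', Perm.mul_apply]
  refine ⟨n, by rw [key _ le_rfl, hv], fun i hi => ?_⟩
  rw [key _ (by omega)]
  exact hB i hi

/-- a gadget: its words, its new words, its arcs -/
structure DG (k : ℕ) where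
  B : Finset (X k)
  F : Set (X k)
  arcs : Set (X k × X k)

/-- the gadget absorbs -/
def DG.Abs (g : DG k) : Prop :=
  ∀ f : Perm (X k), (∀ w, w ∈ g.B → f w = TT w) → (∀ w, w ∈ g.F → f w = TT w) →
    (∀ p ∈ g.arcs, FR f g.B p.1 p.2) →
    (∀ u ∈ g.B, ∀ v ∈ g.B, u ∉ g.F → v ∉ g.F → f.SameCycle u v) →
    ∃ (π : Perm (X k)) (z : X k → ZMod (2 * k + 1)), Legal π z ∧ (∀ w, w ∉ g.B → π w = w) ∧
      (∀ w, w ∉ g.B → z w = 0) ∧ (∀ x y, f.SameCycle x y → (f * π).SameCycle x y) ∧
      (∀ u ∈ g.B, ∀ v ∈ g.B, (f * π).SameCycle u v)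

/-- the permutations built from the gadgets of `s` -/
inductive Built {Γ : Type} [DecidableEq Γ] (gad : Γ → DG k) : Finset Γ → Perm (X k) → Prop
  | nil : Built gad ∅ 1
  | step {s : Finset Γ} {π ρ : Perm (X k)} {a : Γ} : Built gad s π → a ∉ s →
      (∀ w, w ∉ (gad a).B → ρ w = w) → Built gad (insert a s) (π * ρ)

theorem Built.off {Γ : Type} [DecidableEq Γ] {gad : Γ → DG k} {s : Finset Γ} {π : Perm (X k)}
    (h : Built gad s π) : ∀ w, (∀ g ∈ s, w ∉ (gad g).B) → π w = w := by
  induction h with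
  | nil => intro w _; rfl
  | @step s π ρ a _ _ hρ ih =>
    intro w hw
    rw [Perm.mul_apply, hρ w (hw a (mem_insert_self a s))]
    exact ih w (fun g hg => hw g (mem_insert_of_mem hg))

/-- ASSEMBLY, directed -/
theorem dir_assembly {Γ : Type} [Fintype Γ] [DecidableEq Γ] (gad : Γ → DG k) (rk : Γ → ℕ)
    (root : X k)
    (hdis : ∀ g h, g ≠ h → ∀ w ∈ (gad g).B, w ∉ (gad h).B)
    (hF : ∀ g, ∀ w w', TT.SameCycle w w' → w ∈ (gad g).F → w' ∈ (gad g).F)
    (hFne : ∀ g, ∀ w ∈ (gad g).F, ∃ u ∈ (gad g).B, TT.SameCycle w u)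
    (hold : ∀ g, ∃ u ∈ (gad g).B, u ∉ (gad g).F)
    (hFdis : ∀ g h, g ≠ h → ∀ w ∈ (gad g).F, w ∉ (gad h).F)
    (hroot : ∀ g, root ∉ (gad g).F)
    (hall : ∀ w, TT.SameCycle root w ∨ ∃ g, w ∈ (gad g).F)
    (hB : ∀ g, ∀ w ∈ (gad g).B, w ∈ (gad g).F ∨ TT.SameCycle root w ∨
      ∃ h, rk h < rk g ∧ w ∈ (gad h).F)
    (hFR : ∀ (g : Γ) (s : Finset Γ) (π : Perm (X k)), Built gad s π → g ∉ s →
      (∀ h ∈ s, rk h ≤ rk g) → ∀ p ∈ (gad g).arcs, FR (TT * π) (gad g).B p.1 p.2)
    (hAbs : ∀ g, (gad g).Abs) :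
    ∃ (π : Perm (X k)) (z : X k → ZMod (2 * k + 1)), Legal π z ∧
      ∀ a b, (TT * π).SameCycle a b := by
  have key : ∀ s : Finset Γ, (∀ g ∈ s, ∀ h, rk h < rk g → h ∈ s) →
      ∃ (π : Perm (X k)) (z : X k → ZMod (2 * k + 1)), Built gad s π ∧ Legal π z ∧
        (∀ w, (∀ g ∈ s, w ∉ (gad g).B) → z w = 0) ∧
        (∀ w, (TT.SameCycle root w ∨ ∃ g ∈ s, w ∈ (gad g).F) → (TT * π).SameCycle root w) ∧
        (∀ x y, TT.SameCycle x y → (TT * π).SameCycle x y) := by
    intro s
    induction s using Finset.induction_on_max_value rk with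
    | empty =>
      intro _
      refine ⟨1, fun _ => 0, Built.nil, legal_one, fun _ _ => rfl, ?_, ?_⟩
      · rintro w (h | ⟨g, hg, _⟩)
        · rw [mul_one]
          exact h
        · simp at hg
      · intro x y h
        rw [mul_one]
        exact h
    | insert a s ha hmax ih =>
      intro hdown
      have hdown' : ∀ g ∈ s, ∀ h, rk h < rk g → h ∈ s := by
        intro g hg h hlt
        rcases mem_insert.1 (hdown g (mem_insert_of_mem hg) h hlt) with h1 | h1
        · exfalso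
          rw [h1] at hlt
          have := hmax g hg
          omega
        · exact h1
      have hlow : ∀ h, rk h < rk a → h ∈ s := by
        intro h hlt
        rcases mem_insert.1 (hdown a (mem_insert_self a s) h hlt) with h1 | h1
        · exfalso
          rw [h1] at hlt
          omega
        · exact h1
      obtain ⟨π, z, hbu, hleg, hz0, hroot', hmono⟩ := ih hdown'
      -- the words of a and of its new T-cycles are untouched
      have hBa : ∀ w, w ∈ (gad a).B → ∀ g ∈ s, w ∉ (gad g).B := by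
        intro w hw g hg
        refine hdis a g ?_ w hw
        rintro rfl
        exact ha hg
      have hFa : ∀ w, w ∈ (gad a).F → ∀ g ∈ s, w ∉ (gad g).B := by
        intro w hw g hg hwg
        have hag : a ≠ g := by
          rintro rfl
          exact ha hg
        rcases hB g w hwg with h1 | h1 | ⟨h, h1, h2⟩
        · exact hFdis a g hag w hw h1
        · exact hroot a (hF a _ _ h1.symm hw)
        · have h3 := hmax g hg
          have h4 : a ≠ h := by
            rintro rfl
            omega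
          exact hFdis a h h4 w hw h2
      have hf1 : ∀ w, w ∈ (gad a).B → (TT * π : Perm (X k)) w = TT w := by
        intro w hw
        rw [Perm.mul_apply, hbu.off w (hBa w hw)]
      have hf2 : ∀ w, w ∈ (gad a).F → (TT * π : Perm (X k)) w = TT w := by
        intro w hw
        rw [Perm.mul_apply, hbu.off w (hFa w hw)]
      have hold' : ∀ u ∈ (gad a).B, u ∉ (gad a).F → (TT * π).SameCycle root u := by
        intro u hu huF
        apply hroot'
        rcases hB a u hu with h1 | h1 | ⟨h, h1, h2⟩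
        · exact (huF h1).elim
        · exact Or.inl h1
        · exact Or.inr ⟨h, hlow h h1, h2⟩
      obtain ⟨ρ, y, hleg', hρ, hy, hm', hc'⟩ := hAbs a (TT * π) hf1 hf2
        (hFR a s π hbu ha hmax)
        (fun u hu v hv huF hvF => (hold' u hu huF).symm.trans (hold' v hv hvF))
      refine ⟨π * ρ, fun w => z w + y w, Built.step hbu ha hρ,
        Legal.mul (B := (gad a).B) (fun w hw => hbu.off w (hBa w hw))
          (fun w hw => hz0 w (hBa w hw)) hρ hy hleg hleg', ?_, ?_, ?_⟩
      · intro w hw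
        simp only
        rw [hz0 w (fun g hg => hw g (mem_insert_of_mem hg)), hy w (hw a (mem_insert_self a s)),
          add_zero]
      · rw [← mul_assoc]
        rintro w (h1 | ⟨g, hg, h1⟩)
        · exact hm' _ _ (hroot' w (Or.inl h1))
        · rcases mem_insert.1 hg with rfl | hg
          · obtain ⟨u, hu, hwu⟩ := hFne g w h1
            obtain ⟨v, hv, hvF⟩ := hold g
            have h2 := hm' _ _ (hold' v hv hvF)
            have h3 := hc' v hv u hu
            have h4 := hm' _ _ (hmono w u hwu)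
            exact (h2.trans h3).trans h4.symm
          · exact hm' _ _ (hroot' w (Or.inr ⟨g, hg, h1⟩))
      · rw [← mul_assoc]
        intro x y' h1
        exact hm' _ _ (hmono x y' h1)
  obtain ⟨π, z, -, hleg, -, hr, -⟩ := key univ (fun g _ h _ => mem_univ h)
  refine ⟨π, z, hleg, ?_⟩
  have h1 : ∀ w, (TT * π).SameCycle root w := by
    intro w
    apply hr
    rcases hall w with h | ⟨g, h⟩
    · exact Or.inl h
    · exact Or.inr ⟨g, mem_univ g, h⟩
  intro a b
  exact (h1 a).symm.trans (h1 b)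

/-- ASSEMBLY, directed: Hamiltonicity -/
theorem dir_main (hk : 1 ≤ k) {Γ : Type} [Fintype Γ] [DecidableEq Γ] (gad : Γ → DG k)
    (rk : Γ → ℕ) (root : X k)
    (hdis : ∀ g h, g ≠ h → ∀ w ∈ (gad g).B, w ∉ (gad h).B)
    (hF : ∀ g, ∀ w w', TT.SameCycle w w' → w ∈ (gad g).F → w' ∈ (gad g).F)
    (hFne : ∀ g, ∀ w ∈ (gad g).F, ∃ u ∈ (gad g).B, TT.SameCycle w u)
    (hold : ∀ g, ∃ u ∈ (gad g).B, u ∉ (gad g).F)
    (hFdis : ∀ g h, g ≠ h → ∀ w ∈ (gad g).F, w ∉ (gad h).F)
    (hroot : ∀ g, root ∉ (gad g).F)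
    (hall : ∀ w, TT.SameCycle root w ∨ ∃ g, w ∈ (gad g).F)
    (hB : ∀ g, ∀ w ∈ (gad g).B, w ∈ (gad g).F ∨ TT.SameCycle root w ∨
      ∃ h, rk h < rk g ∧ w ∈ (gad h).F)
    (hFR : ∀ (g : Γ) (s : Finset Γ) (π : Perm (X k)), Built gad s π → g ∉ s →
      (∀ h ∈ s, rk h ≤ rk g) → ∀ p ∈ (gad g).arcs, FR (TT * π) (gad g).B p.1 p.2)
    (hAbs : ∀ g, (gad g).Abs) : 2 * k + 1 ∈ compressionSet (oddGraph k) := by
  obtain ⟨π, z, hleg, hone⟩ := dir_assembly gad rk root hdis hF hFne hold hFdis hroot hall hB hFR hAbs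
  exact ham_of_legal hk π z hleg hone

/-- arcs which are `T`-paths with untouched inner words -/
theorem fr_of_path {Γ : Type} [DecidableEq Γ] {gad : Γ → DG k}
    (hdis : ∀ g h, g ≠ h → ∀ w ∈ (gad g).B, w ∉ (gad h).B) {g : Γ} {s : Finset Γ}
    {π : Perm (X k)} (hb : Built gad s π) (hg : g ∉ s) {u v : X k} (hu : u ∈ (gad g).B) (n : ℕ)
    (hv : (TT ^ (n + 1)) u = v) (hB : ∀ i < n, (TT ^ (i + 1)) u ∉ (gad g).B)
    (hin : ∀ i < n, ∀ h ∈ s, (TT ^ (i + 1)) u ∉ (gad h).B) : FR (TT * π) (gad g).B u v := by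
  apply FR.congr n hv hB
  intro i hi
  rw [Perm.mul_apply, hb.off]
  intro h hh
  rcases i with _ | i
  · rw [pow_zero, Perm.one_apply]
    refine hdis g h ?_ u hu
    rintro rfl
    exact hg hh
  · exact hin i (by omega) h hh

end Pool.OddHC
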