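import Pool.Agent.Work.MP_8f87b2_und.Dir
import Pool.Agent.Work.MP_8f87b2_h35.Abs

/-!
MP_8f87b2_co: a gadget of the directed assembly from a certificate of the absorber engine, and the plain triple.
-/

namespace Pool.OddHC

open Finset Equiv

variable {k : ℕ}

/-- orbits inside a closed set on which `f = T` -/
theorem same_of_agree {W : Type} [Finite W] {f T : Perm W} {F : Set W}
    (hF : ∀ w w', T.SameCycle w w' → w ∈ F → w' ∈ F) (h : ∀ w ∈ F, f w = T w) {x y : W}
    (hx : x ∈ F) : f.SameCycle x y ↔ T.SameCycle x y := by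
  have key : ∀ n : ℕ, (f ^ n) x = (T ^ n) x := by
    intro n
    induction n with
    | zero => rfl
    | succ n ih =>
      rw [pow_succ', pow_succ', Perm.mul_apply, Perm.mul_apply, ih]
      apply h
      exact hF x _ ⟨n, rfl⟩ hx
  constructor
  · intro hs
    obtain ⟨n, hn⟩ := hs.exists_nat_pow_eq
    exact ⟨n, by rw [zpow_natCast, ← key, hn]⟩
  · intro hs
    obtain ⟨n, hn⟩ := hs.exists_nat_pow_eq
    exact ⟨n, by rw [zpow_natCast, key, hn]⟩

/-- the gadget of a certificate -/
def engDG (w : ℕ → X k) (A F N : ℕ) : DG k where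
  B := (range N).image w
  F := {x | ∃ i < N, Abs.bit F i = true ∧ TT.SameCycle (w i) x}
  arcs := {p | ∃ i < N, Abs.dig A i < N ∧ p = (w i, w (Abs.dig A i))}

/-- ABSORPTION BY A CERTIFICATE -/
theorem engDG_abs (w : ℕ → X k) (s : ℕ → ZMod (2 * k + 1)) {A F Z x0 z0 : ℕ} (cF : ℕ)
    {al : List ℕ} (code : List ℕ) (hrun : Abs.run A F Z x0 z0 cF al code [[x0]] = true)
    (inj : ∀ i < al.length, ∀ j < al.length, w i = w j → i = j)
    (x0N : x0 < al.length) (x0F : Abs.bit F x0 = false) (z0F : Abs.bit F z0 = true)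
    (FN : ∀ i, Abs.bit F i = true → i < al.length)
    (hal : ∀ i < al.length, ∀ j < al.length, Abs.bit (al.getD i 0) j = true →
      io (w i) (s i) ⊆ insert (s j) (io (w j) (s j)))
    (hfre : ∀ i, Abs.bit F i = true → Abs.bit F (Abs.dig Z i) = true ∧
      FR TT ((range al.length).image w) (w i) (w (Abs.dig Z i)))
    (hout : ∀ i < al.length, ∀ j < al.length, Abs.bit F i = true → Abs.bit F j = false →
      ¬ TT.SameCycle (w i) (w j)) :
    (engDG w A F al.length).Abs := by
  classical
  intro f hfB hfF harc hold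
  have memB : ∀ x, x ∈ (range al.length).image w ↔ Abs.Wd w al.length x := by
    intro x
    rw [mem_image]
    constructor
    · rintro ⟨i, hi, rfl⟩
      exact ⟨i, mem_range.1 hi, rfl⟩
    · rintro ⟨i, hi, rfl⟩
      exact ⟨i, mem_range.2 hi, rfl⟩
  have conv : ∀ x y, FR f ((range al.length).image w) x y → Abs.Fr f (Abs.Wd w al.length) x y := by
    rintro x y ⟨n, hn, hn'⟩
    refine ⟨n + 1, by omega, hn, ?_⟩
    intro i h1 h2 h3
    have h4 := hn' (i - 1) (by omega)
    apply h4
    rw [memB]
    have h5 : i - 1 + 1 = i := by omega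
    rw [h5]
    exact h3
  have hFcl : ∀ x y, TT.SameCycle x y → x ∈ (engDG w A F al.length).F →
      y ∈ (engDG w A F al.length).F := by
    rintro x y h ⟨i, hi, hiF, hix⟩
    exact ⟨i, hi, hiF, hix.trans h⟩
  have hwF : ∀ i < al.length, (w i ∈ (engDG w A F al.length).F ↔ Abs.bit F i = true) := by
    intro i hi
    constructor
    · rintro ⟨j, hj, hjF, hji⟩
      by_contra h
      exact hout j hj i hi hjF (by simpa using h) hji
    · intro h
      exact ⟨i, hi, h, Perm.SameCycle.refl _ _⟩
  have hwB : ∀ i < al.length, w i ∈ (engDG w A F al.length).B := by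
    intro i hi
    exact (memB _).2 ⟨i, hi, rfl⟩
  have G : Abs.Gad f w A F Z x0 z0 al.length := by
    refine ⟨inj, x0N, x0F, z0F, FN, ?_, ?_, ?_, ?_⟩
    · intro i hi hA
      exact conv _ _ (harc (w i, w (Abs.dig A i)) ⟨i, hi, hA, rfl⟩)
    · intro i hi
      obtain ⟨h1, n, h2, h3⟩ := hfre i hi
      refine ⟨h1, conv _ _ (FR.congr n h2 h3 ?_)⟩
      intro m _
      apply hfF
      exact ⟨i, FN i hi, hi, ⟨m, rfl⟩⟩
    · intro i hi hs
      have h1 := (hwF i (FN i hi)).2 hi
      have h2 := (same_of_agree hFcl hfF h1).1 hs.symm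
      exact hout i (FN i hi) x0 x0N hi x0F h2
    · intro i hi hiF
      apply hold _ (hwB x0 x0N) _ (hwB i hi)
      · rw [hwF x0 x0N, x0F]
        simp
      · rw [hwF i hi, hiF]
        simp
  obtain ⟨π, p1, p2, p3, p4⟩ := Abs.absorb G cF code hrun
  obtain ⟨S, hS⟩ : ∃ S : X k → ZMod (2 * k + 1), ∀ i < al.length, S (w i) = s i := by
    refine ⟨fun x => if h : ∃ i < al.length, w i = x then s h.choose else 0, ?_⟩
    intro i hi
    have h : ∃ j < al.length, w j = w i := ⟨i, hi, rfl⟩
    simp only
    rw [dif_pos h]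
    congr 1
    exact inj _ h.choose_spec.1 _ hi h.choose_spec.2
  have hoff : ∀ x, x ∉ (engDG w A F al.length).B → π x = x := by
    intro x hx
    apply p1
    intro i hi h
    exact hx ((memB x).2 ⟨i, hi, h⟩)
  refine ⟨π, fun x => S (π x) - S x, ?_, hoff, ?_, p3, ?_⟩
  · apply legal_of_frame (B := (engDG w A F al.length).B) hoff
    intro x hx
    obtain ⟨i, hi, rfl⟩ := (memB x).1 hx
    obtain ⟨j, hj, hij, hπ⟩ := p2 i hi
    rw [hπ, hS i hi, hS j hj]
    exact hal i hi j hj hij
  · intro x hx
    simp only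
    rw [hoff x hx, sub_self]
  · intro x hx y hy
    obtain ⟨i, hi, rfl⟩ := (memB x).1 hx
    obtain ⟨j, hj, rfl⟩ := (memB y).1 hy
    exact p4 i hi j hj

/-! ### The plain triple -/

/-- the triple `{a, b, c}` with the T-cycles of `b` and `c` new -/
def triDG (a b c : X k) : DG k where
  B := {a, b, c}
  F := {x | TT.SameCycle b x ∨ TT.SameCycle c x}
  arcs := ∅

/-- merging three cycles -/
theorem cyc3_merge {W : Type} [Fintype W] [DecidableEq W] {f : Perm W} {x y z : W}
    (n1 : ¬ f.SameCycle x y) (n2 : ¬ f.SameCycle x z) (n3 : ¬ f.SameCycle y z) :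
    (∀ u v, f.SameCycle u v → (f * cyc3 x y z).SameCycle u v) ∧
      (f * cyc3 x y z).SameCycle x y ∧ (f * cyc3 x y z).SameCycle y z := by
  have e1 : f * cyc3 x y z = f * swap x y * swap y z := by
    unfold cyc3
    rw [mul_assoc]
  have s1 : (f * swap x y).SameCycle x y := swap_merge n1
  have s2 : ¬ (f * swap x y).SameCycle y z := by
    intro hs
    have h4 : orb (f * swap x y) z = orb f z := by
      apply orb_congr
      intro t ht
      apply swap_off
      · rintro rfl; exact n2 (mem_orb.1 ht).symm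
      · rintro rfl; exact n3 (mem_orb.1 ht).symm
    have h5 : y ∈ orb (f * swap x y) z := mem_orb.2 hs.symm
    rw [h4] at h5
    exact n3 (mem_orb.1 h5).symm
  have s3 : (f * swap x y * swap y z).SameCycle y z := swap_merge s2
  have mono : ∀ (g : Perm W) (u v : W), (¬ g.SameCycle u v) → ∀ a b, g.SameCycle a b →
      (g * swap u v).SameCycle a b := by
    intro g u v huv a b hab
    have hm : (g * swap u v).SameCycle u v := swap_merge huv
    by_cases ha : g.SameCycle a u ∨ g.SameCycle a v
    · have hb : g.SameCycle b u ∨ g.SameCycle b v := by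
        rcases ha with ha | ha
        · exact Or.inl (hab.symm.trans ha)
        · exact Or.inr (hab.symm.trans ha)
      have ha' : (g * swap u v).SameCycle a u := by
        rcases swap_reach ha with h | h
        · exact h
        · exact h.trans hm.symm
      have hb' : (g * swap u v).SameCycle b u := by
        rcases swap_reach hb with h | h
        · exact h
        · exact h.trans hm.symm
      exact ha'.trans hb'.symm
    · rw [not_or] at ha
      have h4 : orb (g * swap u v) a = orb g a := by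
        apply orb_congr
        intro t ht
        apply swap_off
        · rintro rfl; exact ha.1 (mem_orb.1 ht)
        · rintro rfl; exact ha.2 (mem_orb.1 ht)
      have h5 : b ∈ orb g a := mem_orb.2 hab
      rw [← h4] at h5
      exact mem_orb.1 h5
  rw [e1]
  refine ⟨fun u v h => mono _ _ _ s2 _ _ (mono _ _ _ n1 _ _ h), mono _ _ _ s2 _ _ s1, s3⟩

/-- the plain triple absorbs two new T-cycles -/
theorem triDG_abs {a b c : X k} (hab : ¬ TT.SameCycle a b) (hac : ¬ TT.SameCycle a c)
    (hbc : ¬ TT.SameCycle b c)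
    (hleg : ∃ z : X k → ZMod (2 * k + 1), (∀ w, w ≠ a → w ≠ b → w ≠ c → z w = 0) ∧
      Legal (cyc3 a b c) z) : (triDG a b c).Abs := by
  classical
  intro f hfB hfF _ hold
  obtain ⟨z, hz, hl⟩ := hleg
  have hFcl : ∀ x y, TT.SameCycle x y → x ∈ (triDG a b c).F → y ∈ (triDG a b c).F := by
    rintro x y h (h1 | h1)
    · exact Or.inl (h1.trans h)
    · exact Or.inr (h1.trans h)
  have hbF : b ∈ (triDG a b c).F := Or.inl (Perm.SameCycle.refl _ _)
  have hcF : c ∈ (triDG a b c).F := Or.inr (Perm.SameCycle.refl _ _)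
  have n1 : ¬ f.SameCycle a b := by
    intro h
    exact hab ((same_of_agree hFcl hfF hbF).1 h.symm).symm
  have n2 : ¬ f.SameCycle a c := by
    intro h
    exact hac ((same_of_agree hFcl hfF hcF).1 h.symm).symm
  have n3 : ¬ f.SameCycle b c := by
    intro h
    exact hbc ((same_of_agree hFcl hfF hbF).1 h)
  obtain ⟨m1, m2, m3⟩ := cyc3_merge n1 n2 n3
  have hoff : ∀ w, w ∉ (triDG a b c).B → w ≠ a ∧ w ≠ b ∧ w ≠ c := by
    intro w hw
    change w ∉ ({a, b, c} : Finset (X k)) at hw
    simpa using hw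
  refine ⟨cyc3 a b c, z, hl, ?_, ?_, m1, ?_⟩
  · intro w hw
    obtain ⟨h1, h2, h3⟩ := hoff w hw
    exact cyc3_off h1 h2 h3
  · intro w hw
    obtain ⟨h1, h2, h3⟩ := hoff w hw
    exact hz w h1 h2 h3
  · have key : ∀ u ∈ (triDG a b c).B, (f * cyc3 a b c).SameCycle b u := by
      intro u hu
      change u ∈ ({a, b, c} : Finset (X k)) at hu
      simp only [mem_insert, mem_singleton] at hu
      rcases hu with rfl | rfl | rfl
      · exact m2.symm
      · exact Perm.SameCycle.refl _ _
      · exact m3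
    intro u hu v hv
    exact (key u hu).symm.trans (key v hv)

end Pool.OddHC
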