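import Pool.Agent.Work.MP_8f87b2_und.Walk

/-!
MP_8f87b2_co, undirected calculus: the base structure of a permutation `T` of the words, its components, the directed
triple as a contractible gadget, and the tree lemma for words.
-/

namespace Pool.OddU

open Equiv

variable {W : Type}

/-- the links of `T`: the forward end of `w` is linked with the backward end of `T w` -/
def bs (T : Perm W) (e : W × Bool) : W × Bool :=
  if e.2 = true then (T e.1, false) else (T.symm e.1, true)

theorem bs_true (T : Perm W) (w : W) : bs T (w, true) = (T w, false) := rfl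

theorem bs_false (T : Perm W) (w : W) : bs T (w, false) = (T.symm w, true) := rfl

theorem bs_T (T : Perm W) (w : W) : bs T (T w, false) = (w, true) := by
  rw [bs_false, Equiv.symm_apply_apply]

theorem bs_lk (T : Perm W) : Lk (bs T) := by
  refine ⟨?_, ?_⟩
  · rintro ⟨w, b⟩
    cases b
    · rw [bs_false, bs_true, Equiv.apply_symm_apply]
    · rw [bs_true, bs_false, Equiv.symm_apply_apply]
  · rintro ⟨w, b⟩ h
    have := congrArg Prod.snd h
    cases b
    · rw [bs_false] at this
      simp at this
    · rw [bs_true] at this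
      simp at this

/-- the ends of the T-cycle of `w` -/
def cyc (T : Perm W) (w : W) : Set (W × Bool) := {e | T.SameCycle w e.1}

theorem cyc_ib (T : Perm W) (w : W) : ∀ e ∈ cyc T w, ib e ∈ cyc T w := fun _ he => he

theorem cyc_bs (T : Perm W) (w : W) : ∀ e ∈ cyc T w, bs T e ∈ cyc T w := by
  rintro ⟨x, b⟩ he
  change T.SameCycle w _
  change T.SameCycle w x at he
  cases b
  · rw [bs_false]
    have h : T.SameCycle w (T (T.symm x)) := by rwa [Equiv.apply_symm_apply]
    exact (Perm.sameCycle_apply_right).1 h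
  · rw [bs_true]
    exact (Perm.sameCycle_apply_right).2 he

theorem conn_bs_pow (T : Perm W) (w : W) (b : Bool) (n : ℕ) :
    Conn ib (bs T) (w, b) ((T ^ n) w, b) := by
  induction n with
  | zero => exact Conn.refl _ _ _
  | succ n ih =>
    have h1 : (T ^ (n + 1)) w = T ((T ^ n) w) := by rw [pow_succ', Perm.mul_apply]
    rw [h1]
    refine ih.trans ?_
    have h2 : Conn ib (bs T) ((T ^ n) w, true) (T ((T ^ n) w), false) := Conn.μ _
    cases b
    · have h3 : Conn ib (bs T) ((T ^ n) w, false) ((T ^ n) w, true) := Conn.ι _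
      exact h3.trans h2
    · have h3 : Conn ib (bs T) (T ((T ^ n) w), false) (T ((T ^ n) w), true) := Conn.ι _
      exact h2.trans h3

theorem conn_bs [Finite W] (T : Perm W) {e f : W × Bool} (h : T.SameCycle e.1 f.1) :
    Conn ib (bs T) e f := by
  obtain ⟨n, hn⟩ := h.exists_nat_pow_eq
  have h1 := conn_bs_pow T e.1 e.2 n
  rw [hn] at h1
  have h2 : Conn ib (bs T) (f.1, e.2) f := by
    by_cases h3 : f.2 = e.2
    · rw [← h3]
      exact Conn.refl _ _ _
    · have h4 : f = ib (f.1, e.2) := by
        apply Prod.ext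
        · rfl
        · change f.2 = !e.2
          cases h5 : f.2 <;> cases h6 : e.2 <;> simp_all
      have h5 : Conn ib (bs T) (f.1, e.2) (ib (f.1, e.2)) := Conn.ι _
      rw [← h4] at h5
      exact h5
  exact Conn.trans h1 h2

theorem conn_bs_iff [Finite W] (T : Perm W) {e f : W × Bool} :
    Conn ib (bs T) e f ↔ T.SameCycle e.1 f.1 :=
  ⟨fun h => h (cyc T e.1) ⟨cyc_ib T _, cyc_bs T _⟩ (Perm.SameCycle.refl T e.1), conn_bs T⟩

/-! ### The directed triple -/

section triple

variable [DecidableEq W]

/-- new links of the triple `x → z → y → x`: the forward end of `x` goes to the backward end of `T z`, etc. -/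
def tnu (T : Perm W) (x z y : W) (e : W × Bool) : W × Bool :=
  if e = (x, true) then (T z, false) else
  if e = (z, true) then (T y, false) else
  if e = (y, true) then (T x, false) else
  if e = (T z, false) then (x, true) else
  if e = (T y, false) then (z, true) else
  if e = (T x, false) then (y, true) else e

/-- the triple as a gadget, `z` and `y` fresh -/
def tri (T : Perm W) (x z y : W) (hxz : x ≠ z) (hxy : x ≠ y) (hzy : z ≠ y) : Gad (bs T) where
  I := {(x, true), (z, true), (y, true), (T x, false), (T z, false), (T y, false)}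
  ν := tnu T x z y
  F := cyc T z ∪ cyc T y
  βI := by
    intro e he
    simp only [Set.mem_insert_iff, Set.mem_singleton_iff] at he ⊢
    rcases he with rfl | rfl | rfl | rfl | rfl | rfl
    · rw [bs_true]; simp
    · rw [bs_true]; simp
    · rw [bs_true]; simp
    · rw [bs_T]; simp
    · rw [bs_T]; simp
    · rw [bs_T]; simp
  νI := by
    intro e he
    simp only [Set.mem_insert_iff, Set.mem_singleton_iff] at he ⊢
    rcases he with rfl | rfl | rfl | rfl | rfl | rfl <;> unfold tnu <;>
      simp [hxz, hxy, hzy, hxz.symm, hxy.symm, hzy.symm]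
  νinv := by
    intro e he
    simp only [Set.mem_insert_iff, Set.mem_singleton_iff] at he
    rcases he with rfl | rfl | rfl | rfl | rfl | rfl <;> unfold tnu <;>
      simp [hxz, hxy, hzy, hxz.symm, hxy.symm, hzy.symm]
  νne := by
    intro e he
    simp only [Set.mem_insert_iff, Set.mem_singleton_iff] at he
    rcases he with rfl | rfl | rfl | rfl | rfl | rfl <;> unfold tnu <;>
      simp [hxz, hxy, hzy, hxz.symm, hxy.symm, hzy.symm]

/-- the triple with both children fresh is contractible -/
theorem tri_CT [Finite W] (T : Perm W) (x z y : W) (hxz : ¬ T.SameCycle x z)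
    (hxy : ¬ T.SameCycle x y) (hzy : ¬ T.SameCycle z y) :
    (tri T x z y (fun h => hxz (by rw [h])) (fun h => hxy (by rw [h]))
      (fun h => hzy (by rw [h]))).CT ib := by
  intro μ hμ hI hF μ' hI' hout
  have nxz : x ≠ z := fun h => hxz (by rw [h])
  have nxy : x ≠ y := fun h => hxy (by rw [h])
  have nzy : z ≠ y := fun h => hzy (by rw [h])
  have hmem : ∀ e, e ∈ (tri T x z y nxz nxy nzy).I ↔ e = (x, true) ∨ e = (z, true) ∨ e = (y, true) ∨
      e = (T x, false) ∨ e = (T z, false) ∨ e = (T y, false) := by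
    intro e
    change e ∈ ({(x, true), (z, true), (y, true), (T x, false), (T z, false), (T y, false)} :
      Set (W × Bool)) ↔ _
    simp only [Set.mem_insert_iff, Set.mem_singleton_iff]
  have hIμ : ∀ e ∈ (tri T x z y nxz nxy nzy).I, μ e ∈ (tri T x z y nxz nxy nzy).I := by
    intro e he
    rw [hI e he]
    exact (tri T x z y nxz nxy nzy).βI e he
  apply window ib_lk hμ hIμ hout
  intro σ hσ S hS1 hS2
  have fresh : ∀ w, (w = z ∨ w = y) → ∀ e, e ∈ cyc T w → e ∉ (tri T x z y nxz nxy nzy).I →
      μ e ∈ cyc T w := by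
    intro w hw e he heI
    rw [hF e (by
      change e ∈ cyc T z ∪ cyc T y
      rcases hw with rfl | rfl
      · exact Or.inl he
      · exact Or.inr he)]
    exact cyc_bs T w e he
  have hz : σ (z, true) = (T z, false) := by
    have h0 : (z, true) ∈ (tri T x z y nxz nxy nzy).I := (hmem _).2 (by simp)
    have h1 := hσ.cl (cyc T z) (cyc_ib T z) (fresh z (Or.inl rfl)) (z, true) h0
      (Perm.SameCycle.refl T z)
    have h2 := hσ.mem _ h0
    have h3 := hσ.ne _ h0
    rw [hmem] at h2
    rcases h2 with h | h | h | h | h | h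
    · rw [h] at h1
      exact (hxz (Perm.SameCycle.symm h1)).elim
    · exact (h3 h).elim
    · rw [h] at h1
      exact (hzy h1).elim
    · rw [h] at h1
      exact (hxz (Perm.SameCycle.symm ((Perm.sameCycle_apply_right).1 h1))).elim
    · exact h
    · rw [h] at h1
      exact (hzy ((Perm.sameCycle_apply_right).1 h1)).elim
  have hy : σ (y, true) = (T y, false) := by
    have h0 : (y, true) ∈ (tri T x z y nxz nxy nzy).I := (hmem _).2 (by simp)
    have h1 := hσ.cl (cyc T y) (cyc_ib T y) (fresh y (Or.inr rfl)) (y, true) h0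
      (Perm.SameCycle.refl T y)
    have h2 := hσ.mem _ h0
    have h3 := hσ.ne _ h0
    rw [hmem] at h2
    rcases h2 with h | h | h | h | h | h
    · rw [h] at h1
      exact (hxy (Perm.SameCycle.symm h1)).elim
    · rw [h] at h1
      exact (hzy (Perm.SameCycle.symm h1)).elim
    · exact (h3 h).elim
    · rw [h] at h1
      exact (hxy (Perm.SameCycle.symm ((Perm.sameCycle_apply_right).1 h1))).elim
    · rw [h] at h1
      exact (hzy (Perm.SameCycle.symm ((Perm.sameCycle_apply_right).1 h1))).elim
    · exact h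
  -- the cycle x+ , Tz- , z+ , Ty- , y+ , Tx-
  have e1 : μ' (x, true) = (T z, false) := by
    rw [hI' _ ((hmem _).2 (by simp))]
    change tnu T x z y _ = _
    unfold tnu
    simp
  have e2 : μ' (z, true) = (T y, false) := by
    rw [hI' _ ((hmem _).2 (by simp))]
    change tnu T x z y _ = _
    unfold tnu
    simp [nxz.symm]
  have e3 : μ' (y, true) = (T x, false) := by
    rw [hI' _ ((hmem _).2 (by simp))]
    change tnu T x z y _ = _
    unfold tnu
    simp [nxy.symm, nzy.symm]
  have e1' : μ' (T z, false) = (x, true) := by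
    rw [hI' _ ((hmem _).2 (by simp))]
    change tnu T x z y _ = _
    unfold tnu
    simp
  have e2' : μ' (T y, false) = (z, true) := by
    rw [hI' _ ((hmem _).2 (by simp))]
    change tnu T x z y _ = _
    unfold tnu
    simp [nzy.symm]
  have e3' : μ' (T x, false) = (y, true) := by
    rw [hI' _ ((hmem _).2 (by simp))]
    change tnu T x z y _ = _
    unfold tnu
    simp [nxz, nxy]
  have hz' : σ (T z, false) = (z, true) := by
    rw [← hz]
    exact hσ.inv _ ((hmem _).2 (by simp))
  have hy' : σ (T y, false) = (y, true) := by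
    rw [← hy]
    exact hσ.inv _ ((hmem _).2 (by simp))
  have i1 : (x, true) ∈ S ↔ (T z, false) ∈ S :=
    ⟨fun h => e1 ▸ hS2 _ ((hmem _).2 (by simp)) h, fun h => e1' ▸ hS2 _ ((hmem _).2 (by simp)) h⟩
  have i2 : (z, true) ∈ S ↔ (T y, false) ∈ S :=
    ⟨fun h => e2 ▸ hS2 _ ((hmem _).2 (by simp)) h, fun h => e2' ▸ hS2 _ ((hmem _).2 (by simp)) h⟩
  have i3 : (y, true) ∈ S ↔ (T x, false) ∈ S :=
    ⟨fun h => e3 ▸ hS2 _ ((hmem _).2 (by simp)) h, fun h => e3' ▸ hS2 _ ((hmem _).2 (by simp)) h⟩
  have i4 : (z, true) ∈ S ↔ (T z, false) ∈ S :=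
    ⟨fun h => hz ▸ hS1 _ ((hmem _).2 (by simp)) h, fun h => hz' ▸ hS1 _ ((hmem _).2 (by simp)) h⟩
  have i5 : (y, true) ∈ S ↔ (T y, false) ∈ S :=
    ⟨fun h => hy ▸ hS1 _ ((hmem _).2 (by simp)) h, fun h => hy' ▸ hS1 _ ((hmem _).2 (by simp)) h⟩
  have key : ∀ e ∈ (tri T x z y nxz nxy nzy).I, (e ∈ S ↔ (x, true) ∈ S) := by
    intro e he
    rw [hmem] at he
    rcases he with rfl | rfl | rfl | rfl | rfl | rfl
    · exact Iff.rfl
    · rw [i1, i4]
    · rw [i1, ← i4, i2, i5]
    · rw [i1, ← i4, i2, ← i5, i3]
    · rw [i1]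
    · rw [i1, ← i4, i2]
  intro e he f hf heS
  exact (key f hf).2 ((key e he).1 heS)

end triple

end Pool.OddU
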