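import Mathlib

/-!
MP_8f87b2_co, undirected calculus, abstract part: a finite set `E` of ends of words with the fixed point free involution
`ι` (the two ends of a word) and link structures `μ` (involutions). The relation `Conn`, the strand lemma and the
window lemma.
-/

namespace Pool.OddU

variable {E : Type*}

/-- closed under both maps -/
def Cl (ι μ : E → E) (S : Set E) : Prop := (∀ e ∈ S, ι e ∈ S) ∧ (∀ e ∈ S, μ e ∈ S)

/-- in the same component -/
def Conn (ι μ : E → E) (e f : E) : Prop := ∀ S : Set E, Cl ι μ S → e ∈ S → f ∈ S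

theorem Conn.refl (ι μ : E → E) (e : E) : Conn ι μ e e := fun _ _ h => h

theorem Conn.trans {ι μ : E → E} {e f g : E} (h1 : Conn ι μ e f) (h2 : Conn ι μ f g) :
    Conn ι μ e g := fun S hS h => h2 S hS (h1 S hS h)

theorem Conn.ι {ι μ : E → E} (e : E) : Conn ι μ e (ι e) := fun _ hS h => hS.1 e h

theorem Conn.μ {ι μ : E → E} (e : E) : Conn ι μ e (μ e) := fun _ hS h => hS.2 e h

theorem Cl.compl {ι μ : E → E} (hι : Function.Involutive ι) (hμ : Function.Involutive μ)
    {S : Set E} (h : Cl ι μ S) : Cl ι μ Sᶜ := by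
  refine ⟨fun e he h1 => he ?_, fun e he h1 => he ?_⟩
  · have := h.1 _ h1
    rwa [hι e] at this
  · have := h.2 _ h1
    rwa [hμ e] at this

theorem Conn.symm {ι μ : E → E} (hι : Function.Involutive ι) (hμ : Function.Involutive μ)
    {e f : E} (h : Conn ι μ e f) : Conn ι μ f e := by
  intro S hS hf
  by_contra he
  exact h Sᶜ (hS.compl hι hμ) he hf

theorem Conn.iff_mem {ι μ : E → E} (hι : Function.Involutive ι) (hμ : Function.Involutive μ)
    {e f : E} (h : Conn ι μ e f) {S : Set E} (hS : Cl ι μ S) : e ∈ S ↔ f ∈ S :=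
  ⟨h S hS, (h.symm hι hμ) S hS⟩

/-- the set of everything connected to `e` -/
theorem cl_class (ι μ : E → E) (e : E) : Cl ι μ {f | Conn ι μ e f} :=
  ⟨fun f hf => Conn.trans hf (Conn.ι f), fun f hf => Conn.trans hf (Conn.μ f)⟩

theorem Conn.iterate {ι μ : E → E} (e : E) (n : ℕ) : Conn ι μ e ((fun x => ι (μ x))^[n] e) := by
  induction n with
  | zero => exact Conn.refl _ _ _
  | succ n ih =>
    rw [Function.iterate_succ_apply']
    exact (ih.trans (Conn.μ _)).trans (Conn.ι _)

/-! ### The strand lemma -/

section strand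

variable {ι ρ : E → E}

/-- `ρ π^j = π^(-j)` from a fixed point of `ρ` -/
theorem rho_iter (hι : Function.Involutive ι) (hρ : Function.Involutive ρ) {e : E} (he : ρ e = e) {L : ℕ}
    (hL : (fun x => ι (ρ x))^[L] e = e) : ∀ j, j ≤ L →
    ρ ((fun x => ι (ρ x))^[j] e) = (fun x => ι (ρ x))^[L - j] e := by
  intro j
  induction j with
  | zero =>
    intro _
    rw [Function.iterate_zero_apply, he, Nat.sub_zero, hL]
  | succ j ih =>
    intro hj
    have h1 := ih (by omega)
    rw [Function.iterate_succ_apply', h1]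
    have h2 : L - j = (L - (j + 1)) + 1 := by omega
    rw [h2, Function.iterate_succ_apply', hι, hρ]

theorem iota_iter (hι : Function.Involutive ι) (hρ : Function.Involutive ρ) {e : E} (he : ρ e = e) {L : ℕ}
    (hL : (fun x => ι (ρ x))^[L] e = e) (j : ℕ) (hj : j + 1 ≤ L) :
    ι ((fun x => ι (ρ x))^[j + 1] e) = (fun x => ι (ρ x))^[L - j] e := by
  rw [Function.iterate_succ_apply']
  rw [hι, rho_iter hι hρ he hL j (by omega)]

/-- STRAND LEMMA: the fixed points of `ρ` are paired by `σ` along the components of `ι, ρ` -/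
theorem exists_strand [Finite E] (hι : Function.Involutive ι) (hι' : ∀ e, ι e ≠ e)
    (hρ : Function.Involutive ρ) :
    ∃ σ : E → E, (∀ e, ρ e = e → ρ (σ e) = σ e ∧ σ (σ e) = e ∧ σ e ≠ e ∧ Conn ι ρ e (σ e)) ∧
      (∀ e, ρ e = e → ρ (ι e) = ι e → σ e = ι e) := by
  classical
  have hinj : Function.Injective (fun x => ι (ρ x)) := hι.injective.comp hρ.injective
  have hper : ∀ e, 0 < Function.minimalPeriod (fun x => ι (ρ x)) e := by
    intro e
    exact Function.minimalPeriod_pos_of_mem_periodicPts
      (hinj.mem_periodicPts e)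
  have hL : ∀ e, (fun x => ι (ρ x))^[Function.minimalPeriod (fun x => ι (ρ x)) e] e = e := by
    intro e
    exact Function.iterate_minimalPeriod
  have heven : ∀ e, ρ e = e → ∃ m, Function.minimalPeriod (fun x => ι (ρ x)) e = 2 * m := by
    intro e he
    rcases Nat.even_or_odd' (Function.minimalPeriod (fun x => ι (ρ x)) e) with ⟨m, hm | hm⟩
    · exact ⟨m, hm⟩
    · exfalso
      have h1 := iota_iter hι hρ he (hL e) m (by omega)
      have h2 : Function.minimalPeriod (fun x => ι (ρ x)) e - m = m + 1 := by omega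
      rw [h2] at h1
      exact hι' _ h1
  refine ⟨fun e => (fun x => ι (ρ x))^[Function.minimalPeriod (fun x => ι (ρ x)) e / 2] e,
    ?_, ?_⟩
  · intro e he
    obtain ⟨m, hm⟩ := heven e he
    have hm0 := hper e
    have h0 : Function.minimalPeriod (fun x => ι (ρ x)) e / 2 = m := by omega
    have h1 : Function.minimalPeriod (fun x => ι (ρ x)) ((fun x => ι (ρ x))^[m] e) =
        Function.minimalPeriod (fun x => ι (ρ x)) e :=
      Function.minimalPeriod_apply_iterate (hinj.mem_periodicPts e) m
    refine ⟨?_, ?_, ?_, ?_⟩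
    · simp only [h0]
      have h2 := rho_iter hι hρ he (hL e) m (by omega)
      have h3 : Function.minimalPeriod (fun x => ι (ρ x)) e - m = m := by omega
      rw [h3] at h2
      exact h2
    · simp only [h0, h1]
      rw [← Function.iterate_add_apply]
      have h3 : m + m = Function.minimalPeriod (fun x => ι (ρ x)) e := by omega
      rw [h3]
      exact hL e
    · simp only [h0]
      intro h4
      have h5 : Function.minimalPeriod (fun x => ι (ρ x)) e ≤ m :=
        Function.IsPeriodicPt.minimalPeriod_le (by omega) h4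
      omega
    · exact Conn.iterate e _
  · intro e he he'
    have h1 : (fun x => ι (ρ x))^[1] e = ι e := by
      rw [Function.iterate_one]
      rw [he]
    have h2 : (fun x => ι (ρ x))^[2] e = e := by
      rw [Function.iterate_succ_apply', h1]
      rw [he', hι]
    have h3 : Function.minimalPeriod (fun x => ι (ρ x)) e ≤ 2 :=
      Function.IsPeriodicPt.minimalPeriod_le (by omega) h2
    obtain ⟨m, hm⟩ := heven e he
    have hm0 := hper e
    have h4 : Function.minimalPeriod (fun x => ι (ρ x)) e / 2 = 1 := by omega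
    simp only [h4]
    exact h1

end strand

end Pool.OddU
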