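import Pool.Agent.Work.MP_8f87b2_und.Win

/-!
MP_8f87b2_co, undirected calculus: windows given by a finite list of labelled ends, checked by computation: the
strand pairing is known on the inner ends and on the fresh cycles, all matchings of the remaining ends are tried.
-/

namespace Pool.OddU

variable {N : ℕ}

/-- alternate steps along `s` and `ν` -/
def alt (ν s : Fin N → Fin N) : ℕ → Fin N → List (Fin N)
  | 0, _ => []
  | n + 1, i => i :: s i :: alt ν s n (ν (s i))

theorem alt_mem (ν s : Fin N → Fin N) {T : Set (Fin N)} (h1 : ∀ i ∈ T, s i ∈ T)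
    (h2 : ∀ i ∈ T, ν i ∈ T) : ∀ n i, i ∈ T → ∀ j ∈ alt ν s n i, j ∈ T := by
  intro n
  induction n with
  | zero =>
    intro i _ j hj
    simp [alt] at hj
  | succ n ih =>
    intro i hi j hj
    unfold alt at hj
    rcases List.mem_cons.1 hj with rfl | hj
    · exact hi
    rcases List.mem_cons.1 hj with rfl | hj
    · exact h1 i hi
    · exact ih _ (h2 _ (h1 i hi)) j hj

/-- all matchings of a list -/
def mats : ℕ → List (Fin N) → List (List (Fin N × Fin N))
  | 0, _ => [[]]
  | _ + 1, [] => [[]]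
  | n + 1, a :: l => l.flatMap (fun b => (mats n (l.erase b)).map (fun m => (a, b) :: m))

/-- the partner in a matching -/
def ptn : List (Fin N × Fin N) → Fin N → Fin N
  | [], i => i
  | (a, b) :: m, i => if i = a then b else if i = b then a else ptn m i

theorem mats_spec (s : Fin N → Fin N) (hinv : ∀ i, s (s i) = i) (hne : ∀ i, s i ≠ i) :
    ∀ (n : ℕ) (l : List (Fin N)), l.length ≤ 2 * n → l.Nodup → (∀ i ∈ l, s i ∈ l) →
      ∃ m ∈ mats n l, ∀ i ∈ l, ptn m i = s i := by
  intro n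
  induction n with
  | zero =>
    intro l hl _ _
    have : l = [] := List.length_eq_zero_iff.1 (by omega)
    subst this
    exact ⟨[], by simp [mats], by simp⟩
  | succ n ih =>
    intro l hl hnd hs
    rcases l with _ | ⟨a, l⟩
    · exact ⟨[], by simp [mats], by simp⟩
    · rw [List.nodup_cons] at hnd
      have hb : s a ∈ l := by
        rcases List.mem_cons.1 (hs a List.mem_cons_self) with h | h
        · exact (hne a h).elim
        · exact h
      have hnd' : (l.erase (s a)).Nodup := hnd.2.erase _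
      have hlen : (l.erase (s a)).length ≤ 2 * n := by
        rw [List.length_erase_of_mem hb]
        rw [List.length_cons] at hl
        omega
      have hs' : ∀ i ∈ l.erase (s a), s i ∈ l.erase (s a) := by
        intro i hi
        have hi' := (List.Nodup.mem_erase_iff hnd.2).1 hi
        rw [List.Nodup.mem_erase_iff hnd.2]
        constructor
        · intro h
          have : i = a := by rw [← hinv i, h, hinv a]
          rw [this] at hi'
          exact hnd.1 hi'.2
        · rcases List.mem_cons.1 (hs i (List.mem_cons_of_mem _ hi'.2)) with h | h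
          · exfalso
            apply hi'.1
            rw [← h, hinv]
          · exact h
      obtain ⟨m, hm, hm'⟩ := ih _ hlen hnd' hs'
      refine ⟨(a, s a) :: m, ?_, ?_⟩
      · unfold mats
        rw [List.mem_flatMap]
        exact ⟨s a, hb, List.mem_map.2 ⟨m, hm, rfl⟩⟩
      · intro i hi
        unfold ptn
        by_cases h1 : i = a
        · rw [if_pos h1, h1]
        · rw [if_neg h1]
          by_cases h2 : i = s a
          · rw [if_pos h2, h2, hinv]
          · rw [if_neg h2]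
            apply hm'
            rw [List.Nodup.mem_erase_iff hnd.2]
            refine ⟨h2, ?_⟩
            rcases List.mem_cons.1 hi with h | h
            · exact (h1 h).elim
            · exact h

/-- the candidate pairings -/
def cand (kn : Fin N → Option (Fin N)) (m : List (Fin N × Fin N)) (i : Fin N) : Fin N :=
  match kn i with
  | some j => j
  | none => ptn m i

/-- what is known about the pairing `s`: inner ends and classes of fresh cycles; `kn` = the known partners -/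
structure Data (N : ℕ) where
  old : Fin N → Fin N
  ν : Fin N → Fin N
  int : Fin N → Option (Fin N)
  cls : Fin N → ℕ
  kn : Fin N → Option (Fin N)
  bd : List (Fin N)

/-- the finite check -/
structure Data.Ok (d : Data N) : Prop where
  νinv : ∀ i, d.ν (d.ν i) = i
  νne : ∀ i, d.ν i ≠ i
  knok : ∀ i j, d.kn i = some j → d.int i = some j ∨
    (1 ≤ d.cls i ∧ ∀ l, d.cls l = d.cls i → l = i ∨ l = j ∨ ∃ l', d.int l = some l' ∧ l' ≠ i)
  nodup : d.bd.Nodup
  hbd : ∀ i, i ∈ d.bd ↔ d.kn i = none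
  kncl : ∀ i j, d.kn i = some j → d.kn j = some i
  all : ∀ i0, ∀ m ∈ mats N d.bd, ∀ j, j ∈ alt d.ν (cand d.kn m) N i0

/-- the checker -/
def Data.chk (d : Data N) : Bool :=
  decide (∀ i, d.ν (d.ν i) = i) && decide (∀ i, d.ν i ≠ i) &&
  decide (∀ i j, d.kn i = some j → d.int i = some j ∨
    (1 ≤ d.cls i ∧ ∀ l, d.cls l = d.cls i → l = i ∨ l = j ∨ ∃ l', d.int l = some l' ∧ l' ≠ i)) &&
  decide (d.bd.Nodup) && decide (∀ i, i ∈ d.bd ↔ d.kn i = none) &&
  decide (∀ i j, d.kn i = some j → d.kn j = some i) &&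
  decide (∀ i0, ∀ m ∈ mats N d.bd, ∀ j, j ∈ alt d.ν (cand d.kn m) N i0)

theorem Data.ok_of_chk {d : Data N} (h : d.chk = true) : d.Ok := by
  unfold Data.chk at h
  simp only [Bool.and_eq_true, decide_eq_true_eq] at h
  obtain ⟨⟨⟨⟨⟨⟨h1, h2⟩, h3⟩, h4⟩, h5⟩, h6⟩, h7⟩ := h
  exact ⟨h1, h2, h3, h4, h5, h6, h7⟩

/-- the pairing on the labels -/
theorem Data.Ok.all_mem {d : Data N} (h : d.Ok) {s : Fin N → Fin N} (hinv : ∀ i, s (s i) = i)
    (hne : ∀ i, s i ≠ i) (hint : ∀ i j, d.int i = some j → s i = j)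
    (hcls : ∀ i, 1 ≤ d.cls i → d.cls (s i) = d.cls i) {T : Set (Fin N)} (h1 : ∀ i ∈ T, s i ∈ T)
    (h2 : ∀ i ∈ T, d.ν i ∈ T) (i j : Fin N) (hi : i ∈ T) : j ∈ T := by
  have hkn : ∀ i j, d.kn i = some j → s i = j := by
    intro i j hij
    rcases h.knok i j hij with h3 | ⟨h3, h4⟩
    · exact hint i j h3
    · rcases h4 (s i) (hcls i h3) with h5 | h5 | ⟨l', h5, h6⟩
      · exact (hne i h5).elim
      · exact h5
      · exfalso
        apply h6
        rw [← hint _ _ h5, hinv]
  have hbd : ∀ i ∈ d.bd, s i ∈ d.bd := by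
    intro i hi
    rw [h.hbd] at hi ⊢
    rcases hk : d.kn (s i) with _ | j
    · rfl
    · exfalso
      have h3 := hkn _ _ hk
      rw [hinv] at h3
      have h4 := h.kncl _ _ hk
      rw [← h3, hi] at h4
      simp at h4
  have hlen : d.bd.length ≤ 2 * N := by
    have h3 := h.nodup.length_le_card
    rw [Fintype.card_fin] at h3
    omega
  obtain ⟨m, hm, hm'⟩ := mats_spec s hinv hne N d.bd hlen h.nodup hbd
  have hs : cand d.kn m = s := by
    funext i
    unfold cand
    rcases hk : d.kn i with _ | j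
    · simp only
      exact hm' i ((h.hbd i).2 hk)
    · simp only
      exact (hkn _ _ hk).symm
  have h3 := h.all i m hm j
  rw [hs] at h3
  exact alt_mem d.ν s h1 h2 N i hi j h3

variable {E : Type*}

/-- WINDOW LEMMA BY LABELS -/
theorem window_lab [Finite E] {ι μ μ' : E → E} (hι : Lk ι) (hμ : Lk μ) (d : Data N) (hd : d.Ok)
    (lab : Fin N → E) (hinj : Function.Injective lab) (hold : ∀ i, μ (lab i) = lab (d.old i))
    (hν : ∀ i, μ' (lab i) = lab (d.ν i)) (hout : ∀ e, e ∉ Set.range lab → μ' e = μ e)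
    (hint : ∀ i j, d.int i = some j → ι (lab i) = lab j)
    (Z : ℕ → Set E) (hZ1 : ∀ c, 1 ≤ c → ∀ e ∈ Z c, ι e ∈ Z c)
    (hZ2 : ∀ c, 1 ≤ c → ∀ e ∈ Z c, e ∉ Set.range lab → μ e ∈ Z c)
    (hZ : ∀ c, 1 ≤ c → ∀ i, lab i ∈ Z c ↔ d.cls i = c) :
    ∀ e ∈ Set.range lab, ∀ f ∈ Set.range lab, Conn ι μ' e f := by
  have hI : ∀ e ∈ Set.range lab, μ e ∈ Set.range lab := by
    rintro e ⟨i, rfl⟩
    exact ⟨d.old i, (hold i).symm⟩
  apply window hι hμ hI hout
  intro σ hσ S hS1 hS2
  have hs : ∀ i, ∃ j, lab j = σ (lab i) := fun i => hσ.mem _ ⟨i, rfl⟩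
  obtain ⟨s, hs'⟩ : ∃ s : Fin N → Fin N, s = fun i => (hs i).choose := ⟨_, rfl⟩
  have hs : ∀ i, lab (s i) = σ (lab i) := by
    intro i
    rw [hs']
    exact (hs i).choose_spec
  rintro e ⟨i, rfl⟩ f ⟨j, rfl⟩ he
  refine hd.all_mem (s := s) ?_ ?_ ?_ ?_ (T := {i | lab i ∈ S}) ?_ ?_ i j he
  · intro i
    apply hinj
    rw [hs, hs]
    exact hσ.inv _ ⟨i, rfl⟩
  · intro i h
    apply hσ.ne (lab i) ⟨i, rfl⟩
    rw [← hs, h]
  · intro i j hij
    apply hinj
    rw [hs, ← hint i j hij]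
    exact hσ.int _ ⟨i, rfl⟩ ⟨j, (hint i j hij).symm⟩
  · intro i hi
    rw [← hZ _ hi, hs]
    exact hσ.cl (Z (d.cls i)) (hZ1 _ hi) (hZ2 _ hi) _ ⟨i, rfl⟩ ((hZ _ hi i).2 rfl)
  · intro i hi
    change lab (s i) ∈ S
    rw [hs]
    exact hS1 _ ⟨i, rfl⟩ hi
  · intro i hi
    change lab (d.ν i) ∈ S
    rw [← hν]
    exact hS2 _ ⟨i, rfl⟩ hi

/-- a gadget given by labels; `Z c`, `c ≥ 1`, are the fresh cycles -/
noncomputable def Gad.lab {β : E → E} (d : Data N) (hd : d.Ok) (lab : Fin N → E)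
    (hinj : Function.Injective lab) (hold : ∀ i, β (lab i) = lab (d.old i)) (F : Set E) :
    Gad β where
  I := Set.range lab
  ν := Function.extend lab (fun i => lab (d.ν i)) id
  F := F
  βI := by
    rintro e ⟨i, rfl⟩
    exact ⟨d.old i, (hold i).symm⟩
  νI := by
    rintro e ⟨i, rfl⟩
    exact ⟨d.ν i, by rw [hinj.extend_apply]⟩
  νinv := by
    rintro e ⟨i, rfl⟩
    rw [hinj.extend_apply, hinj.extend_apply, hd.νinv]
  νne := by
    rintro e ⟨i, rfl⟩
    rw [hinj.extend_apply]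
    intro h
    exact hd.νne i (hinj h)

theorem Gad.lab_ν {β : E → E} (d : Data N) (hd : d.Ok) (lab : Fin N → E)
    (hinj : Function.Injective lab) (hold : ∀ i, β (lab i) = lab (d.old i)) (F : Set E)
    (i : Fin N) : (Gad.lab d hd lab hinj hold F).ν (lab i) = lab (d.ν i) := by
  change Function.extend lab (fun i => lab (d.ν i)) id (lab i) = lab (d.ν i)
  rw [hinj.extend_apply]

/-- the gadget is contractible -/
theorem Gad.lab_CT [Finite E] {ι β : E → E} (hι : Lk ι) (d : Data N) (hd : d.Ok)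
    (lab : Fin N → E) (hinj : Function.Injective lab) (hold : ∀ i, β (lab i) = lab (d.old i))
    (F : Set E) (hint : ∀ i j, d.int i = some j → ι (lab i) = lab j)
    (Z : ℕ → Set E) (hZ1 : ∀ c, 1 ≤ c → ∀ e ∈ Z c, ι e ∈ Z c)
    (hZ2 : ∀ c, 1 ≤ c → ∀ e ∈ Z c, β e ∈ Z c) (hZF : ∀ c, 1 ≤ c → Z c ⊆ F)
    (hZ : ∀ c, 1 ≤ c → ∀ i, lab i ∈ Z c ↔ d.cls i = c) :
    (Gad.lab d hd lab hinj hold F).CT ι := by
  intro μ hμ hI hF μ' hI' hout
  refine window_lab hι hμ d hd lab hinj ?_ ?_ hout hint Z hZ1 ?_ hZ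
  · intro i
    rw [← hold]
    exact hI _ ⟨i, rfl⟩
  · intro i
    rw [hI' _ ⟨i, rfl⟩]
    exact Gad.lab_ν d hd lab hinj hold F i
  · intro c hc e he _
    rw [hF e (hZF c hc he)]
    exact hZ2 c hc e he

end Pool.OddU
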