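import Pool.Agent.Work.MP_8f87b2_und.Walk

/-!
MP_8f87b2_co, undirected calculus: two states of a window with the same ends of the through paths; change of the
displacement.
-/

namespace Pool.OddU

/-- TWO STATES. `V` = the ends of the words of the window; `ℓ` names the piece of the first state in which an end lies,
`ℓ'` the piece of the second state; `r l` is an end of the second piece `l`. If the pieces of both states have the same
boundary and the first state is connected then so is the second. -/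
theorem two_state {E Λ : Type*} {ι μ μ' : E → E} (hι : Lk ι) (hμ : Lk μ) (V : Set E)
    (ℓ ℓ' : E → Λ) (r : Λ → E) (hVι : ∀ e ∈ V, ι e ∈ V) (hout : ∀ e, e ∉ V → μ' e = μ e)
    (hin : ∀ e ∈ V, μ e ∈ V → ℓ (μ e) = ℓ e) (hιℓ : ∀ e ∈ V, ℓ (ι e) = ℓ e)
    (hbd : ∀ e ∈ V, μ e ∉ V → μ' e = μ e ∧ ℓ' e = ℓ e) (hr : ∀ l, ∃ e ∈ V, ℓ e = l)
    (hB : ∀ S, Cl ι μ' S → ∀ e ∈ V, (e ∈ S ↔ r (ℓ' e) ∈ S)) (hc : ∀ e f, Conn ι μ e f) :
    ∀ e f, Conn ι μ' e f := by
  intro e0 f0 S hS he0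
  obtain ⟨S1, hS1⟩ : ∃ S1 : Set E, S1 = {e | (e ∉ V ∧ e ∈ S) ∨ (e ∈ V ∧ r (ℓ e) ∈ S)} := ⟨_, rfl⟩
  have m1 : ∀ e, e ∉ V → (e ∈ S1 ↔ e ∈ S) := by
    intro e he
    rw [hS1]
    simp [he]
  have m2 : ∀ e ∈ V, (e ∈ S1 ↔ r (ℓ e) ∈ S) := by
    intro e he
    rw [hS1]
    simp [he]
  have hV' : ∀ e, e ∉ V → ι e ∉ V := by
    intro e he h
    apply he
    have := hVι _ h
    rwa [hι.inv] at this
  have hcl : Cl ι μ S1 := by
    refine ⟨?_, ?_⟩
    · intro e he
      by_cases hV : e ∈ V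
      · rw [m2 _ (hVι e hV), hιℓ e hV]
        exact (m2 e hV).1 he
      · rw [m1 _ (hV' e hV)]
        exact hS.1 e ((m1 e hV).1 he)
    · intro e he
      by_cases hV : e ∈ V
      · have h1 := (m2 e hV).1 he
        by_cases hV2 : μ e ∈ V
        · rw [m2 _ hV2, hin e hV hV2]
          exact h1
        · obtain ⟨h2, h3⟩ := hbd e hV hV2
          rw [m1 _ hV2, ← h2]
          apply hS.2
          rw [hB S hS e hV, h3]
          exact h1
      · have h1 := (m1 e hV).1 he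
        by_cases hV2 : μ e ∈ V
        · obtain ⟨h2, h3⟩ := hbd (μ e) hV2 (by rwa [hμ.inv])
          rw [m2 _ hV2, ← h3, ← hB S hS _ hV2, ← hout e hV]
          exact hS.2 e h1
        · rw [m1 _ hV2, ← hout e hV]
          exact hS.2 e h1
  have hne : ∃ e, e ∈ S1 := by
    by_cases hV : e0 ∈ V
    · obtain ⟨e1, he1, he1'⟩ := hr (ℓ' e0)
      refine ⟨e1, (m2 e1 he1).2 ?_⟩
      rw [he1', ← hB S hS e0 hV]
      exact he0
    · exact ⟨e0, (m1 e0 hV).2 he0⟩
  obtain ⟨e1, he1⟩ := hne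
  have hall : ∀ f, f ∈ S1 := fun f => hc e1 f S1 hcl he1
  by_cases hV : f0 ∈ V
  · obtain ⟨e2, he2, he2'⟩ := hr (ℓ' f0)
    rw [hB S hS f0 hV, ← he2']
    exact (m2 e2 he2).1 (hall e2)
  · exact (m1 f0 hV).1 (hall f0)

/-- change of the displacement -/
theorem disp_change {W M : Type} [Fintype W] [DecidableEq W] [AddCommGroup M] (V : Finset W)
    (a a' : W × Bool → M) (b b' : W → Bool) (h : ∀ w, w ∉ V → a' (w, b' w) = a (w, b w)) :
    ∑ w, a' (w, b' w) = ∑ w, a (w, b w) + ∑ w ∈ V, (a' (w, b' w) - a (w, b w)) := by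
  have h1 : ∑ w, (a' (w, b' w) - a (w, b w)) = ∑ w ∈ V, (a' (w, b' w) - a (w, b w)) := by
    symm
    apply Finset.sum_subset (Finset.subset_univ V)
    intro w _ hw
    rw [h w hw, sub_self]
  rw [← h1, Finset.sum_sub_distrib]
  abel

/-- opposite orientation -/
theorem Ori.flip {W : Type} {μ : W × Bool → W × Bool} {b : W → Bool} (h : Ori μ b) :
    Ori μ (fun w => !b w) := by
  intro e
  have h1 := h e
  cases h2 : (μ e).2 <;> cases h3 : b (μ e).1 <;> cases h4 : e.2 <;> cases h5 : b e.1 <;> simp_all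

/-- two orientations of a connected structure -/
theorem Ori.unique {W : Type} {μ : W × Bool → W × Bool} (hc : ∀ e f, Conn ib μ e f)
    {b b' : W → Bool} (h : Ori μ b) (h' : Ori μ b') (w : W) (hw : b w = b' w) : b = b' := by
  funext v
  have h1 := hc (w, true) (v, true) {e | b e.1 = b' e.1} ?_ hw
  · exact h1
  refine ⟨fun e he => he, fun e he => ?_⟩
  have h2 := h e
  have h3 := h' e
  change b e.1 = b' e.1 at he
  rw [he] at h2
  have h4 := h2.trans h3.symm
  change b (μ e).1 = b' (μ e).1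
  cases h5 : (μ e).2 <;> cases h6 : b (μ e).1 <;> cases h7 : b' (μ e).1 <;> simp_all

end Pool.OddU
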