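import Pool.Agent.Work.MP_8f87b2_und.Win
import Pool.Agent.Work.MP_8f87b2_base.Leg

/-!
MP_8f87b2_co, undirected calculus: ends of words `W × Bool` (`true` = forward end), orientations, the closed walk of a
connected link structure, and the reduction `ham_of_links`.
-/

namespace Pool.OddU

open Finset Equiv

variable {W : Type} 

/-- the other end of the word -/
def ib (e : W × Bool) : W × Bool := (e.1, !e.2)

theorem ib_lk : Lk (ib : W × Bool → W × Bool) := by
  refine ⟨fun e => ?_, fun e h => ?_⟩
  · unfold ib
    simp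
  · have := congrArg Prod.snd h
    unfold ib at this
    simp at this

/-- an orientation: `b w` is the end by which the walk leaves the word `w` -/
def Ori (μ : W × Bool → W × Bool) (b : W → Bool) : Prop :=
  ∀ e, (μ e).2 = b (μ e).1 ↔ e.2 ≠ b e.1

theorem no_flip {E : Type*} {ι μ : E → E} (hι : Lk ι) (hμ : Lk μ) : ∀ (c : ℕ) (p : E),
    ι p ≠ (fun x => ι (μ x))^[c] p := by
  intro c
  induction c using Nat.strong_induction_on with
  | _ c ih =>
    intro p h
    rcases c with _ | _ | c
    · exact hι.ne p h
    · rw [zero_add, Function.iterate_one] at h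
      exact hμ.ne p (hι.inv.injective h).symm
    · have hinj : Function.Injective (fun x => ι (μ x)) := hι.inv.injective.comp hμ.inv.injective
      apply ih c (by omega) (ι (μ p))
      rw [hι.inv]
      apply hinj
      simp only
      rw [hμ.inv, h]
      rw [Function.iterate_succ_apply', Function.iterate_succ_apply]

/-- every connected link structure has an orientation -/
theorem exists_ori [Finite W] {μ : W × Bool → W × Bool} (hμ : Lk μ)
    (hc : ∀ e f, Conn ib μ e f) : ∃ b, Ori μ b := by
  classical
  rcases isEmpty_or_nonempty W with hW | ⟨⟨w0⟩⟩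
  · exact ⟨fun _ => true, fun e => (hW.false e.1).elim⟩
  obtain ⟨π, hπ⟩ : ∃ π : W × Bool → W × Bool, π = fun x => ib (μ x) := ⟨_, rfl⟩
  have hinj : Function.Injective π := by
    rw [hπ]
    exact ib_lk.inv.injective.comp hμ.inv.injective
  obtain ⟨P, hP⟩ : ∃ P : Set (W × Bool), P = {f | ∃ n, π^[n] (w0, true) = f} := ⟨_, rfl⟩
  have hL : 0 < Function.minimalPeriod π (w0, true) :=
    Function.minimalPeriod_pos_of_mem_periodicPts (hinj.mem_periodicPts _)
  have hL' : π^[Function.minimalPeriod π (w0, true)] (w0, true) = (w0, true) :=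
    Function.iterate_minimalPeriod
  have hP1 : ∀ f ∈ P, π f ∈ P := by
    rw [hP]
    rintro f ⟨n, hn⟩
    exact ⟨n + 1, by rw [Function.iterate_succ_apply', hn]⟩
  have hP2 : ∀ f ∈ P, ∃ g ∈ P, π g = f := by
    rw [hP]
    rintro f ⟨n, hn⟩
    rcases n with _ | n
    · refine ⟨π^[Function.minimalPeriod π (w0, true) - 1] (w0, true), ⟨_, rfl⟩, ?_⟩
      have h1 := Function.iterate_succ_apply' π (Function.minimalPeriod π (w0, true) - 1) (w0, true)
      rw [← h1, ← hn, Function.iterate_zero_apply]
      have : (Function.minimalPeriod π (w0, true) - 1).succ =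
          Function.minimalPeriod π (w0, true) := by omega
      rw [this, hL']
    · refine ⟨π^[n] (w0, true), ⟨n, rfl⟩, ?_⟩
      have h1 := Function.iterate_succ_apply' π n (w0, true)
      rw [← h1, hn]
  have h0 : (w0, true) ∈ P := by
    rw [hP]
    exact ⟨0, rfl⟩
  have hpi : ∀ f, π f = ib (μ f) := fun f => by rw [hπ]
  have hcl : Cl ib μ (P ∪ ib ⁻¹' P) := by
    refine ⟨?_, ?_⟩
    · rintro e (he | he)
      · right
        change ib (ib e) ∈ P
        rw [ib_lk.inv]
        exact he
      · left
        exact he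
    · rintro e (he | he)
      · right
        change ib (μ e) ∈ P
        rw [← hpi]
        exact hP1 e he
      · left
        obtain ⟨g, hg, hge⟩ := hP2 _ he
        rw [hpi] at hge
        have h1 := ib_lk.inv.injective hge
        rw [← h1, hμ.inv]
        exact hg
  have hall : ∀ f, f ∈ P ∨ ib f ∈ P := fun f => hc (w0, true) f _ hcl (Or.inl h0)
  have hdisj : ∀ f, f ∈ P → ib f ∉ P := by
    intro f h1 h2
    rw [hP] at h1 h2
    obtain ⟨n, hn⟩ := h1
    obtain ⟨m, hm⟩ := h2
    -- ib f = π^[c] f
    have h3 : ∃ c, π^[c] f = ib f := by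
      obtain ⟨L, hLdef⟩ : ∃ L, L = Function.minimalPeriod π (w0, true) := ⟨_, rfl⟩
      rw [← hLdef] at hL hL'
      have h4 : ∀ q, π^[q * L] (w0, true) = (w0, true) := by
        intro q
        induction q with
        | zero => rw [zero_mul, Function.iterate_zero_apply]
        | succ q ih => rw [add_mul, one_mul, Function.iterate_add_apply, hL', ih]
      refine ⟨m + (n * L - n), ?_⟩
      have h5 : n ≤ n * L := Nat.le_mul_of_pos_right n hL
      rw [← hn, ← Function.iterate_add_apply]
      have h6 : m + (n * L - n) + n = m + n * L := by omega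
      rw [h6, Function.iterate_add_apply, h4, hm, hn]
    obtain ⟨c, hc'⟩ := h3
    rw [hπ] at hc'
    exact no_flip ib_lk hμ c f hc'.symm
  refine ⟨fun w => decide ((w, true) ∈ P), ?_⟩
  have hmem : ∀ e : W × Bool, e.2 = decide ((e.1, true) ∈ P) ↔ e ∈ P := by
    rintro ⟨w, c⟩
    cases c
    · simp only
      have h1 : ib (w, false) = (w, true) := rfl
      have h2 : ib (w, true) = (w, false) := rfl
      constructor
      · intro h
        have h3 : (w, true) ∉ P := by
          intro h4
          rw [decide_eq_true h4] at h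
          exact Bool.false_ne_true h
        rcases hall (w, true) with h5 | h5
        · exact (h3 h5).elim
        · exact h5
      · intro h
        have h3 : (w, true) ∉ P := by
          rw [← h1]
          exact hdisj _ h
        rw [decide_eq_false h3]
    · simp only
      constructor
      · intro h
        exact of_decide_eq_true h.symm
      · intro h
        exact (decide_eq_true h).symm
  intro e
  rw [hmem, Ne, hmem]
  constructor
  · intro h1 h2
    have h3 := hP1 e h2
    rw [hpi] at h3
    exact hdisj _ h1 h3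
  · intro h
    rcases hall e with h1 | h1
    · exact (h h1).elim
    · obtain ⟨g, hg, hge⟩ := hP2 _ h1
      rw [hpi] at hge
      have h2 := ib_lk.inv.injective hge
      rw [← h2, hμ.inv]
      exact hg

/-- the next word of the walk -/
def nx (μ : W × Bool → W × Bool) (b : W → Bool) (w : W) : W := (μ (w, b w)).1

theorem nx_inj {μ : W × Bool → W × Bool} (hμ : Lk μ) {b : W → Bool} (hb : Ori μ b) :
    Function.Injective (nx μ b) := by
  intro w w' h
  have key : ∀ w, μ (w, b w) = (nx μ b w, !b (nx μ b w)) := by
    intro w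
    have h1 := hb (w, b w)
    have h2 : ¬ (μ (w, b w)).2 = b (μ (w, b w)).1 := fun h3 => (h1.1 h3) rfl
    apply Prod.ext
    · rfl
    · simp only
      unfold nx
      rcases hx : (μ (w, b w)).2 with _ | _ <;> rcases hy : b (μ (w, b w)).1 with _ | _ <;>
        simp_all
  have h1 : μ (w, b w) = μ (w', b w') := by rw [key w, key w', h]
  exact congrArg Prod.fst (hμ.inv.injective h1)

theorem nx_cycle [Finite W] {μ : W × Bool → W × Bool} (hμ : Lk μ) {b : W → Bool} (hb : Ori μ b)
    (hc : ∀ e f, Conn ib μ e f) (g : Perm W) (hg : ∀ w, g w = nx μ b w) (w w' : W) :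
    g.SameCycle w w' := by
  have h := hc (w, true) (w', true) {e | g.SameCycle w e.1} ?_ (Perm.SameCycle.refl g w)
  · exact h
  refine ⟨fun e he => he, fun e he => ?_⟩
  change g.SameCycle w (μ e).1
  by_cases h1 : e.2 = b e.1
  · have h2 : g e.1 = (μ e).1 := by
      rw [hg]
      unfold nx
      rw [← h1]
    rw [← h2]
    exact (Perm.sameCycle_apply_right).2 he
  · have h2 := (hb e).2 h1
    have h3 : g (μ e).1 = e.1 := by
      rw [hg]
      unfold nx
      rw [← h2]
      have : ((μ e).1, (μ e).2) = μ e := rfl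
      rw [this, hμ.inv]
    have h4 : g.SameCycle w (g (μ e).1) := by
      rw [h3]
      exact he
    exact (Perm.sameCycle_apply_right).1 h4

/-! ### The reduction -/

open Pool.OddHC Pool.Agent.Work.MP_8f87b2_co

/-- a closed walk through all words with unit displacement -/
theorem ham_of_walk {k : ℕ} (hk : 1 ≤ k) (g : Perm (X k)) (F : X k → ZMod (2 * k + 1))
    (hdis : ∀ w, Disjoint (io w 0) (io (g w) (F w))) (hone : ∀ a b, g.SameCycle a b)
    (hunit : IsUnit (∑ w, F w)) : 2 * k + 1 ∈ compressionSet (oddGraph k) := by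
  classical
  have hpos : 0 < Fintype.card (X k) := by
    rw [X_card]
    have h1 := cat_choose k
    have h2 : 0 < (2 * k + 1).choose k := Nat.choose_pos (by omega)
    rcases Nat.eq_zero_or_pos (catalan k) with h | h
    · rw [h, zero_mul] at h1
      omega
    · exact h
  obtain ⟨a⟩ : Nonempty (X k) := Fintype.card_pos_iff.1 hpos
  obtain ⟨S, hS⟩ : ∃ S : ℕ → ZMod (2 * k + 1), S = fun i => ∑ j ∈ range i, F ((g ^ j) a) :=
    ⟨_, rfl⟩
  have hSS : ∀ i, S (i + 1) = S i + F ((g ^ i) a) := by
    intro i
    rw [hS]
    simp only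
    rw [sum_range_succ]
  have hsum : S (Fintype.card (X k)) = ∑ w, F w := by
    rw [hS]
    simp only
    rw [sum_orbit g hone a F]
  obtain ⟨he, hi⟩ := pow_end g hone a
  have hshift : ∀ (t : ZMod (2 * k + 1)) (x : X k) (s : ZMod (2 * k + 1)),
      shift k t ⟨io x s, io_card x s⟩ = ⟨io x (s + t), io_card x (s + t)⟩ := by
    intro t x s
    apply Subtype.ext
    ext j
    rw [mem_shift]
    simp only
    rw [io_shift, mem_image]
    constructor
    · intro h
      exact ⟨j - t, h, by ring⟩
    · rintro ⟨i, hi, rfl⟩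
      have : i + t - t = i := by ring
      rw [this]
      exact hi
  apply lower_of_seq (M := Fintype.card (X k)) hk (fun i => ⟨io ((g ^ i) a) (S i), io_card _ _⟩)
    (∑ w, F w) hunit
  · intro i _
    have h1 : Disjoint (io ((g ^ i) a) (S i)) (io ((g ^ (i + 1)) a) (S (i + 1))) := by
      have h2 := hdis ((g ^ i) a)
      have h3 : (g ^ (i + 1)) a = g ((g ^ i) a) := by
        rw [pow_succ', Perm.mul_apply]
      rw [h3, hSS]
      have h4 : io ((g ^ i) a) (S i) = (io ((g ^ i) a) 0).image (fun j => j + S i) := by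
        rw [← io_shift, zero_add]
      have h5 : io (g ((g ^ i) a)) (S i + F ((g ^ i) a)) =
          (io (g ((g ^ i) a)) (F ((g ^ i) a))).image (fun j => j + S i) := by
        rw [← io_shift, add_comm (F ((g ^ i) a)) (S i)]
      rw [h4, h5]
      exact (disjoint_image (add_left_injective _)).2 h2
    refine ⟨?_, h1⟩
    intro h2
    have h3 := congrArg Subtype.val h2
    simp only at h3
    rw [← h3] at h1
    have h4 : io ((g ^ i) a) (S i) = ∅ := by
      rw [disjoint_self_iff_empty] at h1
      exact h1
    have h5 := io_card ((g ^ i) a) (S i)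
    rw [h4, card_empty] at h5
    omega
  · rw [hshift]
    apply Subtype.ext
    simp only
    rw [he, pow_zero, Perm.one_apply, hsum]
    congr 1
    rw [hS]
    simp
  · intro i j hi' hj' t h1
    rw [hshift] at h1
    have h2 := congrArg Subtype.val h1
    simp only at h2
    obtain ⟨h3, h4⟩ := io_inj h2
    have h5 := hi i j hi' hj' h3
    refine ⟨h5, ?_⟩
    rw [h5] at h4
    exact add_eq_left.1 h4
  · rw [X_card, cat_choose]

/-- legal links -/
def LegalU {k : ℕ} (μ : X k × Bool → X k × Bool) (a : X k × Bool → ZMod (2 * k + 1)) : Prop :=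
  (∀ e, Disjoint (io e.1 0) (io (μ e).1 (a e))) ∧ ∀ e, a (μ e) = - a e

/-- REDUCTION, undirected form -/
theorem ham_of_links {k : ℕ} (hk : 1 ≤ k) (μ : X k × Bool → X k × Bool)
    (a : X k × Bool → ZMod (2 * k + 1)) (hμ : Lk μ) (hleg : LegalU μ a)
    (hc : ∀ e f, Conn ib μ e f) (b : X k → Bool) (hb : Ori μ b)
    (hunit : IsUnit (∑ w, a (w, b w))) : 2 * k + 1 ∈ compressionSet (oddGraph k) := by
  have hbij := Finite.injective_iff_bijective.1 (nx_inj hμ hb)
  apply ham_of_walk hk (Equiv.ofBijective _ hbij) (fun w => a (w, b w)) ?_ ?_ hunit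
  · intro w
    exact hleg.1 (w, b w)
  · intro w w'
    exact nx_cycle hμ hb hc _ (fun w => rfl) w w'

end Pool.OddU
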