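import Pool.Agent.Work.MP_8f87b2_und.Inv

/-!
MP_8f87b2_co, undirected calculus: the window lemma, families of windows, the tree lemma.
-/

namespace Pool.OddU

variable {E : Type*}

/-- link structures: fixed point free involutions -/
structure Lk (μ : E → E) : Prop where
  inv : Function.Involutive μ
  ne : ∀ e, μ e ≠ e

/-- a pairing `σ` of the ends in `I` along the strands outside (`ι` everywhere, `μ` outside `I`) -/
structure Strand (ι μ : E → E) (I : Set E) (σ : E → E) : Prop where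
  mem : ∀ e ∈ I, σ e ∈ I
  inv : ∀ e ∈ I, σ (σ e) = e
  ne : ∀ e ∈ I, σ e ≠ e
  int : ∀ e ∈ I, ι e ∈ I → σ e = ι e
  cl : ∀ Z : Set E, (∀ e ∈ Z, ι e ∈ Z) → (∀ e ∈ Z, e ∉ I → μ e ∈ Z) → ∀ e ∈ I, e ∈ Z → σ e ∈ Z

theorem Strand.exists [Finite E] {ι μ : E → E} (hι : Lk ι) (hμ : Lk μ) {I : Set E}
    (hI : ∀ e ∈ I, μ e ∈ I) : ∃ σ : E → E, Strand ι μ I σ := by
  classical
  obtain ⟨ρ, hρ⟩ : ∃ ρ : E → E, ρ = fun e => if e ∈ I then e else μ e := ⟨_, rfl⟩
  have h1 : ∀ e ∈ I, ρ e = e := by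
    intro e he
    rw [hρ]
    simp only
    rw [if_pos he]
  have h2 : ∀ e, e ∉ I → ρ e = μ e := by
    intro e he
    rw [hρ]
    simp only
    rw [if_neg he]
  have h3 : ∀ e, e ∉ I → μ e ∉ I := by
    intro e he h
    apply he
    have := hI _ h
    rwa [hμ.inv e] at this
  have h4 : ∀ e, ρ e = e → e ∈ I := by
    intro e he
    by_contra h
    rw [h2 e h] at he
    exact hμ.ne e he
  have hρi : Function.Involutive ρ := by
    intro e
    by_cases he : e ∈ I
    · rw [h1 e he, h1 e he]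
    · rw [h2 e he, h2 _ (h3 e he), hμ.inv]
  obtain ⟨σ, hσ, hσ'⟩ := exists_strand hι.inv hι.ne hρi
  refine ⟨σ, fun e he => h4 _ (hσ e (h1 e he)).1, fun e he => (hσ e (h1 e he)).2.1,
    fun e he => (hσ e (h1 e he)).2.2.1, fun e he he' => hσ' e (h1 e he) (h1 _ he'), ?_⟩
  intro Z hZ1 hZ2 e he heZ
  refine (hσ e (h1 e he)).2.2.2 Z ⟨hZ1, ?_⟩ heZ
  intro f hf
  by_cases hfI : f ∈ I
  · rw [h1 f hfI]
    exact hf
  · rw [h2 f hfI]
    exact hZ2 f hf hfI

/-- replacing the links in `I`: if all ends of `I` are connected afterwards then nothing is lost -/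
theorem conn_mono {ι μ μ' : E → E} {I : Set E} (hI : ∀ e ∈ I, μ e ∈ I)
    (hout : ∀ e, e ∉ I → μ' e = μ e) (hall : ∀ e ∈ I, ∀ f ∈ I, Conn ι μ' e f) {e f : E}
    (h : Conn ι μ e f) : Conn ι μ' e f := by
  intro S hS he
  refine h S ⟨hS.1, ?_⟩ he
  intro x hx
  by_cases hxI : x ∈ I
  · exact hall x hxI _ (hI x hxI) S hS hx
  · rw [← hout x hxI]
    exact hS.2 x hx

/-- WINDOW LEMMA -/
theorem window [Finite E] {ι μ μ' : E → E} (hι : Lk ι) (hμ : Lk μ) {I : Set E}
    (hI : ∀ e ∈ I, μ e ∈ I) (hout : ∀ e, e ∉ I → μ' e = μ e)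
    (H : ∀ σ : E → E, Strand ι μ I σ → ∀ S : Set E, (∀ e ∈ I, e ∈ S → σ e ∈ S) →
      (∀ e ∈ I, e ∈ S → μ' e ∈ S) → ∀ e ∈ I, ∀ f ∈ I, e ∈ S → f ∈ S) :
    ∀ e ∈ I, ∀ f ∈ I, Conn ι μ' e f := by
  intro e he f hf S hS heS
  obtain ⟨σ, hσ⟩ := Strand.exists hι hμ hI
  refine H σ hσ S ?_ (fun x _ hx => hS.2 x hx) e he f hf heS
  intro x hx hxS
  refine hσ.cl S hS.1 ?_ x hx hxS
  intro y hy hyI
  rw [← hout y hyI]
  exact hS.2 y hy

/-! ### Families of windows -/

/-- a gadget over the base structure `β`: the ends `I` of the removed links, the new links `ν`, the fresh ends `F` -/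
structure Gad (β : E → E) where
  I : Set E
  ν : E → E
  F : Set E
  βI : ∀ e ∈ I, β e ∈ I
  νI : ∀ e ∈ I, ν e ∈ I
  νinv : ∀ e ∈ I, ν (ν e) = e
  νne : ∀ e ∈ I, ν e ≠ e

/-- the gadget connects its window, whatever happened outside, if its fresh ends have not been touched -/
def Gad.CT (ι : E → E) {β : E → E} (g : Gad β) : Prop :=
  ∀ μ : E → E, Lk μ → (∀ e ∈ g.I, μ e = β e) → (∀ e ∈ g.F, μ e = β e) →
    ∀ μ' : E → E, (∀ e ∈ g.I, μ' e = g.ν e) → (∀ e, e ∉ g.I → μ' e = μ e) →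
    ∀ e ∈ g.I, ∀ f ∈ g.I, Conn ι μ' e f

section family

variable {Γ : Type*}

open Classical in
/-- all gadgets of `s` applied -/
noncomputable def app {β : E → E} (gad : Γ → Gad β) (s : Finset Γ) (e : E) : E :=
  if h : ∃ g ∈ s, e ∈ (gad g).I then (gad h.choose).ν e else β e

variable {β : E → E} {gad : Γ → Gad β}

theorem app_out {s : Finset Γ} {e : E} (h : ∀ g ∈ s, e ∉ (gad g).I) : app gad s e = β e := by
  unfold app
  rw [dif_neg]
  rintro ⟨g, hg, he⟩
  exact h g hg he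

theorem app_in (hdis : ∀ g h, g ≠ h → ∀ e ∈ (gad g).I, e ∉ (gad h).I) {s : Finset Γ} {g : Γ}
    (hg : g ∈ s) {e : E} (he : e ∈ (gad g).I) : app gad s e = (gad g).ν e := by
  unfold app
  have h : ∃ g ∈ s, e ∈ (gad g).I := ⟨g, hg, he⟩
  rw [dif_pos h]
  have h1 : h.choose = g := by
    by_contra h2
    exact hdis _ _ h2 e h.choose_spec.2 he
  rw [h1]

theorem app_lk (hβ : Lk β) (hdis : ∀ g h, g ≠ h → ∀ e ∈ (gad g).I, e ∉ (gad h).I)
    (s : Finset Γ) : Lk (app gad s) := by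
  have key : ∀ e, app gad s (app gad s e) = e ∧ app gad s e ≠ e := by
    intro e
    by_cases h : ∃ g ∈ s, e ∈ (gad g).I
    · obtain ⟨g, hg, he⟩ := h
      rw [app_in hdis hg he, app_in hdis hg ((gad g).νI e he)]
      exact ⟨(gad g).νinv e he, (gad g).νne e he⟩
    · have h1 : ∀ g ∈ s, e ∉ (gad g).I := fun g hg he => h ⟨g, hg, he⟩
      have h2 : ∀ g ∈ s, β e ∉ (gad g).I := by
        intro g hg he
        apply h1 g hg
        have := (gad g).βI _ he
        rwa [hβ.inv e] at this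
      rw [app_out h1, app_out h2]
      exact ⟨hβ.inv e, hβ.ne e⟩
  exact ⟨fun e => (key e).1, fun e => (key e).2⟩

/-- FAMILY THEOREM -/
theorem family [Finite E] {ι : E → E} (hι : Lk ι) (hβ : Lk β) (rk : Γ → ℕ)
    (hdis : ∀ g h, g ≠ h → ∀ e ∈ (gad g).I, e ∉ (gad h).I)
    (hfr : ∀ g h, g ≠ h → rk h ≤ rk g → ∀ e ∈ (gad g).F, e ∉ (gad h).I)
    (hCT : ∀ g, (gad g).CT ι) (s : Finset Γ) :
    (∀ e f, Conn ι β e f → Conn ι (app gad s) e f) ∧
      (∀ g ∈ s, ∀ e ∈ (gad g).I, ∀ f ∈ (gad g).I, Conn ι (app gad s) e f) := by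
  classical
  induction s using Finset.induction_on_max_value rk with
  | empty =>
    refine ⟨fun e f h => ?_, fun g hg => by simp at hg⟩
    have : app gad ∅ = β := funext (fun e => app_out (fun g hg => by simp at hg))
    rw [this]
    exact h
  | insert a s ha hmax ih =>
    have hin : ∀ e ∈ (gad a).I, ∀ g ∈ s, e ∉ (gad g).I := by
      intro e he g hg
      refine hdis a g ?_ e he
      rintro rfl
      exact ha hg
    have h1 := hCT a (app gad s) (app_lk hβ hdis s)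
      (fun e he => app_out (hin e he))
      (fun e he => app_out (fun g hg => hfr a g (by rintro rfl; exact ha hg) (hmax g hg) e he))
      (app gad (insert a s)) (fun e he => app_in hdis (Finset.mem_insert_self a s) he)
      (by
        intro e he
        by_cases h : ∃ g ∈ s, e ∈ (gad g).I
        · obtain ⟨g, hg, hge⟩ := h
          rw [app_in hdis hg hge, app_in hdis (Finset.mem_insert_of_mem hg) hge]
        · have h2 : ∀ g ∈ s, e ∉ (gad g).I := fun g hg hge => h ⟨g, hg, hge⟩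
          rw [app_out h2, app_out]
          intro g hg
          rcases Finset.mem_insert.1 hg with rfl | hg
          · exact he
          · exact h2 g hg)
    have hI : ∀ e ∈ (gad a).I, app gad s e ∈ (gad a).I := by
      intro e he
      rw [app_out (hin e he)]
      exact (gad a).βI e he
    have hout : ∀ e, e ∉ (gad a).I → app gad (insert a s) e = app gad s e := by
      intro e he
      by_cases h : ∃ g ∈ s, e ∈ (gad g).I
      · obtain ⟨g, hg, hge⟩ := h
        rw [app_in hdis hg hge, app_in hdis (Finset.mem_insert_of_mem hg) hge]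
      · have h2 : ∀ g ∈ s, e ∉ (gad g).I := fun g hg hge => h ⟨g, hg, hge⟩
        rw [app_out h2, app_out]
        intro g hg
        rcases Finset.mem_insert.1 hg with rfl | hg
        · exact he
        · exact h2 g hg
    refine ⟨fun e f h => conn_mono hI hout h1 (ih.1 e f h), ?_⟩
    intro g hg e he f hf
    rcases Finset.mem_insert.1 hg with rfl | hg
    · exact h1 e he f hf
    · exact conn_mono hI hout h1 (ih.2 g hg e he f hf)

/-- TREE LEMMA -/
theorem tree [Finite E] [Fintype Γ] {ι : E → E} (hι : Lk ι) (hβ : Lk β) (rk : Γ → ℕ)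
    (hdis : ∀ g h, g ≠ h → ∀ e ∈ (gad g).I, e ∉ (gad h).I)
    (hfr : ∀ g h, g ≠ h → rk h ≤ rk g → ∀ e ∈ (gad g).F, e ∉ (gad h).I)
    (hCT : ∀ g, (gad g).CT ι) (r : E → ℕ)
    (hroot : ∀ e f, r e = 0 → r f = 0 → Conn ι β e f)
    (hstep : ∀ e, 0 < r e → ∃ g, ∃ f ∈ (gad g).I, ∃ f' ∈ (gad g).I, Conn ι β e f ∧ r f' < r e) :
    Lk (app gad Finset.univ) ∧ ∀ e f, Conn ι (app gad Finset.univ) e f := by
  have hl := app_lk hβ hdis (Finset.univ : Finset Γ)
  refine ⟨hl, ?_⟩
  obtain ⟨h1, h2⟩ := family hι hβ rk hdis hfr hCT Finset.univ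
  have key : ∀ n, ∀ e, r e = n → ∃ f, r f = 0 ∧ Conn ι (app gad Finset.univ) e f := by
    intro n
    induction n using Nat.strong_induction_on with
    | _ n ih =>
      intro e he
      rcases Nat.eq_zero_or_pos n with h0 | hp
      · exact ⟨e, by rw [he, h0], Conn.refl _ _ _⟩
      · obtain ⟨g, f, hf, f', hf', hef, hlt⟩ := hstep e (by omega)
        obtain ⟨x, hx, hx'⟩ := ih (r f') (by omega) f' rfl
        refine ⟨x, hx, ?_⟩
        exact ((h1 e f hef).trans (h2 g (Finset.mem_univ g) f hf f' hf')).trans hx'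
  intro e f
  obtain ⟨x, hx, hx'⟩ := key _ e rfl
  obtain ⟨y, hy, hy'⟩ := key _ f rfl
  exact (hx'.trans (h1 x y (hroot x y hx hy))).trans (hy'.symm hι.inv hl.inv)

end family

end Pool.OddU
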